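import Pool.Agent.Helper8.DI.B0

/-!
# MP_506470_co, module B2: `L1_fin`
-/

namespace SetHom

open Filter

variable {V : Type} {G : SimpleGraph V}

/-- Successive choice of finite sets along the hyperfilter. -/
theorem choose_sets : ∀ (k : ℕ) (R : Fin k → Fin k → ℕ → ℕ → Prop)
    (_ : ∀ i j, i < j → ∀ᶠ n in hyperfilter ℕ, ∀ᶠ m in hyperfilter ℕ, R i j n m)
    (E : Fin k → Set ℕ) (_ : ∀ i, ∀ᶠ n in hyperfilter ℕ, n ∈ E i) (a : ℕ),
    ∃ A : Fin k → Finset ℕ, (∀ i, (A i).card = a ∧ (A i : Set ℕ) ⊆ E i) ∧
      ∀ i j, i < j → ∀ n ∈ A i, ∀ m ∈ A j, R i j n m := by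
  intro k
  induction k with
  | zero =>
    intro R _ E _ a
    exact ⟨fun i => i.elim0, fun i => i.elim0, fun i => i.elim0⟩
  | succ k ih =>
    intro R hR E hE a
    have h1 : ∀ᶠ n in hyperfilter ℕ, n ∈ E 0 ∧
        ∀ j : Fin k, ∀ᶠ m in hyperfilter ℕ, R 0 j.succ n m := by
      refine (hE 0).and ?_
      rw [eventually_all]
      intro j
      exact hR 0 j.succ (Fin.succ_pos j)
    have h2 : {n | n ∈ E 0 ∧ ∀ j : Fin k, ∀ᶠ m in hyperfilter ℕ, R 0 j.succ n m}.Infinite := by
      intro hfin
      exact notMem_hyperfilter_of_finite hfin h1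
    obtain ⟨A0, hA0, hA0c⟩ := h2.exists_subset_card_eq a
    obtain ⟨A, hA, hAR⟩ := ih (fun i j => R i.succ j.succ)
      (fun i j hij => hR i.succ j.succ (Fin.succ_lt_succ_iff.2 hij))
      (fun j => {m | m ∈ E j.succ ∧ ∀ n ∈ A0, R 0 j.succ n m})
      (fun j => by
        have : ∀ᶠ m in hyperfilter ℕ, m ∈ E j.succ ∧ ∀ n ∈ A0, R 0 j.succ n m := by
          refine (hE j.succ).and ?_
          rw [eventually_all_finset]
          intro n hn
          exact (hA0 hn).2 j
        exact this) a
    refine ⟨Fin.cons A0 A, ?_, ?_⟩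
    · intro i
      refine Fin.cases ?_ ?_ i
      · exact ⟨hA0c, fun n hn => (hA0 hn).1⟩
      · intro j
        refine ⟨by simpa using (hA j).1, ?_⟩
        intro n hn
        exact ((hA j).2 (by simpa using hn)).1
    · intro i
      refine Fin.cases ?_ ?_ i
      · intro j
        refine Fin.cases ?_ ?_ j
        · intro h
          exact absurd h (lt_irrefl _)
        · intro j _ n hn m hm
          exact ((hA j).2 (by simpa using hm)).2 n (by simpa using hn)
      · intro i j
        refine Fin.cases ?_ ?_ j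
        · intro h
          exact absurd h (Fin.not_lt_zero _)
        · intro j h n hn m hm
          exact hAR i j (Fin.succ_lt_succ_iff.1 h) n (by simpa using hn) m (by simpa using hm)

theorem L1_fin (hs : SetHomogeneous G) (hi : ∀ n : ℕ, ∃ A : Finset V, Indep G A ∧ A.card = n)
    {s : ℕ} (hb : ∀ (v : V) (A : Finset V), Indep G A → Full G v A → A.card ≤ s)
    (hc : ∀ N : ℕ, ∃ (K : Finset V) (x y : V), Clq G K ∧ K.card = N ∧ Full G x K ∧ Full G y K ∧
      x ≠ y ∧ ¬ G.Adj x y)
    (hst : ∀ Q : Finset V, Clq G Q → s + 2 ≤ Q.card →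
      ∃ x ∈ Q, ∀ p ∉ Q, ∀ T ⊆ Q, x ∉ T → s + 1 ≤ T.card → Full G p T → G.Adj p x) : False := by
  classical
  obtain ⟨m, hm⟩ := ramsey_fin (s + 1)
  obtain ⟨A, hA, hAm⟩ := hi (m + 1)
  -- an enumeration
  obtain ⟨w, hwA, hwi⟩ : ∃ w : ℕ → V, (∀ i, i ≤ m → w i ∈ A) ∧
      ∀ i j, i ≤ m → j ≤ m → w i = w j → i = j := by
    have e : Fin (m + 1) ≃ A := (Fintype.equivFinOfCardEq (by simpa using hAm)).symm
    refine ⟨fun i => (e (Fin.ofNat (m + 1) i) : V), fun i _ => (e _).2, ?_⟩
    intro i j hi hj h
    have h2 := e.injective (Subtype.ext h)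
    have h3 := congrArg Fin.val h2
    simp only [Fin.ofNat] at h3
    rwa [Nat.mod_eq_of_lt (by omega), Nat.mod_eq_of_lt (by omega)] at h3
  have hwz : ∀ i, i < m → w m ≠ w i := fun i hi h => by
    have := hwi m i le_rfl hi.le h
    omega
  -- the cliques
  have hκ : ∀ i, ∃ κ : ℕ → V, i < m → Function.Injective κ ∧
      (∀ n, G.Adj (w m) (κ n) ∧ G.Adj (w i) (κ n)) ∧ ∀ a b, a ≠ b → G.Adj (κ a) (κ b) := by
    intro i
    by_cases him : i < m
    · obtain ⟨κ, h1, h2, h3⟩ := ramsey_inf (G := G)
        (S := {y | G.Adj (w m) y ∧ G.Adj (w i) y}) (s := s)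
        (by
          intro hfin
          obtain ⟨K, x, y, hK, hKc, hx, hy, hxy, hnxy⟩ := hc (hfin.toFinset.card + 1)
          obtain ⟨φ, hφ⟩ := sh_nonadj hs hxy hnxy (hwz i him)
            (hA _ (hwA m le_rfl) _ (hwA i him.le))
          have hsub : K.image φ ⊆ hfin.toFinset := by
            intro u hu
            obtain ⟨v, hv, rfl⟩ := Finset.mem_image.1 hu
            rw [Set.Finite.mem_toFinset]
            have h1 : G.Adj (φ x) (φ v) := φ.map_adj_iff.2 (hx v hv)
            have h2 : G.Adj (φ y) (φ v) := φ.map_adj_iff.2 (hy v hv)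
            rcases hφ with ⟨e1, e2⟩ | ⟨e1, e2⟩
            · rw [e1] at h1
              rw [e2] at h2
              exact ⟨h1, h2⟩
            · rw [e1] at h1
              rw [e2] at h2
              exact ⟨h2, h1⟩
          have := Finset.card_le_card hsub
          rw [Finset.card_image_of_injective _ φ.injective] at this
          omega)
        (by
          intro B hB hBi
          exact hb (w m) B hBi (fun b hb => (hB hb).1))
      exact ⟨κ, fun _ => ⟨h1, h2, h3⟩⟩
    · exact ⟨fun _ => w m, fun h => absurd h him⟩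
  choose κ hκ using hκ
  obtain ⟨f, hf, hfm, hor⟩ := hm (fun i j => ∀ᶠ n in hyperfilter ℕ, ∀ᶠ k in hyperfilter ℕ,
    G.Adj (κ i n) (κ j k))
  rcases hor with hpos | hneg
  · -- positive case
    obtain ⟨B, hB, hBR⟩ := choose_sets (s + 1) (fun i j n k => G.Adj (κ (f i) n) (κ (f j) k))
      hpos (fun _ => Set.univ) (fun _ => by simp) (s + 2)
    let K : Fin (s + 1) → Finset V := fun i => (B i).image (κ (f i))
    have hKc : ∀ i, (K i).card = s + 2 := fun i => by
      rw [Finset.card_image_of_injective _ (hκ (f i) (hfm i)).1]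
      exact (hB i).1
    have hQ : Clq G (Finset.univ.biUnion K) := by
      intro x hx y hy hxy
      obtain ⟨i, -, hx⟩ := Finset.mem_biUnion.1 hx
      obtain ⟨j, -, hy⟩ := Finset.mem_biUnion.1 hy
      obtain ⟨n, hn, rfl⟩ := Finset.mem_image.1 hx
      obtain ⟨k, hk, rfl⟩ := Finset.mem_image.1 hy
      rcases lt_trichotomy i j with hij | hij | hij
      · exact hBR i j hij n hn k hk
      · subst hij
        exact (hκ (f i) (hfm i)).2.2 n k (fun e => hxy (by rw [e]))
      · exact (hBR j i hij k hk n hn).symm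
    have hQc : s + 2 ≤ (Finset.univ.biUnion K).card := by
      rw [← hKc 0]
      exact Finset.card_le_card (Finset.subset_biUnion_of_mem K (Finset.mem_univ 0))
    obtain ⟨x, hx, hxp⟩ := hst _ hQ hQc
    have hQz : ∀ y ∈ Finset.univ.biUnion K, G.Adj (w m) y := by
      intro y hy
      obtain ⟨j, -, hy⟩ := Finset.mem_biUnion.1 hy
      obtain ⟨k, hk, rfl⟩ := Finset.mem_image.1 hy
      exact ((hκ (f j) (hfm j)).2.1 k).1
    have hadj : ∀ i : Fin (s + 1), G.Adj (w (f i)) x := by
      intro i
      refine hxp (w (f i)) ?_ ((K i).erase x) ?_ (Finset.notMem_erase _ _) ?_ ?_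
      · intro h
        exact hA _ (hwA m le_rfl) _ (hwA (f i) (hfm i).le) (hQz _ h)
      · exact (Finset.erase_subset _ _).trans
          (Finset.subset_biUnion_of_mem K (Finset.mem_univ i))
      · have := Finset.pred_card_le_card_erase (s := K i) (a := x)
        rw [hKc] at this
        omega
      · intro y hy
        obtain ⟨k, hk, rfl⟩ := Finset.mem_image.1 (Finset.mem_of_mem_erase hy)
        exact ((hκ (f i) (hfm i)).2.1 k).2
    have hinj : Function.Injective (fun i : Fin (s + 1) => w (f i)) := by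
      intro i j h
      exact hf.injective (hwi _ _ (hfm i).le (hfm j).le h)
    have h5 := hb x (Finset.univ.image (fun i : Fin (s + 1) => w (f i)))
      (by
        intro a ha b hb
        obtain ⟨i, -, rfl⟩ := Finset.mem_image.1 ha
        obtain ⟨j, -, rfl⟩ := Finset.mem_image.1 hb
        exact hA _ (hwA _ (hfm i).le) _ (hwA _ (hfm j).le))
      (by
        intro a ha
        obtain ⟨i, -, rfl⟩ := Finset.mem_image.1 ha
        exact (hadj i).symm)
    rw [Finset.card_image_of_injective _ hinj, Finset.card_univ, Fintype.card_fin] at h5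
    omega
  · -- negative case
    obtain ⟨B, hB, hBR⟩ := choose_sets (s + 1)
      (fun i j n k => ¬ G.Adj (κ (f i) n) (κ (f j) k) ∧ κ (f i) n ≠ κ (f j) k)
      (by
        intro i j hij
        have h1 : ∀ᶠ n in hyperfilter ℕ, ∀ᶠ k in hyperfilter ℕ,
            ¬ G.Adj (κ (f i) n) (κ (f j) k) := by
          have := hneg i j hij
          rw [← Ultrafilter.eventually_not] at this
          refine this.mono fun n hn => ?_
          rw [← Ultrafilter.eventually_not] at hn
          exact hn
        refine h1.mono fun n hn => ?_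
        refine hn.and ?_
        have h2 : {k | κ (f i) n = κ (f j) k}.Finite := by
          refine Set.Subsingleton.finite ?_
          intro a ha b hb
          have ha' : κ (f i) n = κ (f j) a := ha
          have hb' : κ (f i) n = κ (f j) b := hb
          exact (hκ (f j) (hfm j)).1 (ha'.symm.trans hb')
        have h3 : {k | κ (f i) n = κ (f j) k}ᶜ ∈ hyperfilter ℕ := by
          rw [Ultrafilter.compl_mem_iff_notMem]
          exact notMem_hyperfilter_of_finite h2
        exact h3)
      (fun _ => Set.univ) (fun _ => by simp) 1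
    have hn : ∀ i, ∃ n, n ∈ B i := fun i => by
      have : (B i).Nonempty := by
        rw [← Finset.card_pos, (hB i).1]
        exact Nat.one_pos
      exact this
    choose n hn using hn
    have hinj : Function.Injective (fun i : Fin (s + 1) => κ (f i) (n i)) := by
      intro i j h
      by_contra hij
      rcases lt_or_gt_of_ne hij with h1 | h1
      · exact (hBR i j h1 _ (hn i) _ (hn j)).2 h
      · exact (hBR j i h1 _ (hn j) _ (hn i)).2 h.symm
    have h5 := hb (w m) (Finset.univ.image (fun i : Fin (s + 1) => κ (f i) (n i)))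
      (by
        intro a ha b hb
        obtain ⟨i, -, rfl⟩ := Finset.mem_image.1 ha
        obtain ⟨j, -, rfl⟩ := Finset.mem_image.1 hb
        rcases lt_trichotomy i j with hij | hij | hij
        · exact (hBR i j hij _ (hn i) _ (hn j)).1
        · subst hij
          exact G.irrefl
        · exact fun e => (hBR j i hij _ (hn j) _ (hn i)).1 e.symm)
      (by
        intro a ha
        obtain ⟨i, -, rfl⟩ := Finset.mem_image.1 ha
        exact ((hκ (f i) (hfm i)).2.1 (n i)).1)
    rw [Finset.card_image_of_injective _ hinj, Finset.card_univ, Fintype.card_fin] at h5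
    omega

end SetHom
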